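import Mathlib
import Pool.Agent.R821.MinTop

/-!
# Almost minimality is not inherited by closed subgroups

Let `D` be the group of finitely supported functions `x : ℕ × ℕ → ℤ` with the norm
`∑ |x (k, m)| * 2 ^ (-m)`. The group `G` consists of the triples `(a, b, x)` with `a : ℕ → ℤ/4`,
`b : ℕ × ℕ → ℤ/4` and `x ∈ D` such that `b mod 2` is finitely supported and
`a k ≡ ∑ₘ b (k, m) + ∑ₘ x (k, m)` modulo `2` for all `k`. The subgroup `x = 0` of `G` is minimal and the
quotient by it is `D`, so that `G` is almost minimal. The closed subgroup `b = 0` of `G` is not almost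
minimal.
-/

set_option autoImplicit false

open Filter Topology

namespace Pool.Agent.Results.MP_e403d1_gt.ClosedSubgroupNotAlmostMinimal

universe u

/-- A topological abelian group `(G, τ)` is minimal: there is no Hausdorff group topology on `G`
strictly coarser than `τ` (in Mathlib `τ ≤ σ` says that `σ` is coarser than `τ`). -/
def Minimal (G : Type u) [AddCommGroup G] [τ : TopologicalSpace G] : Prop :=
  ∀ σ : TopologicalSpace G, @IsTopologicalAddGroup G σ _ → @T2Space G σ → τ ≤ σ → σ = τ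

/-- the set `(1/n) U` of the `x` with `k x ∈ U` for `k = 1, ..., n` -/
def frac {G : Type u} [AddCommGroup G] (n : ℕ) (U : Set G) : Set G :=
  {x | ∀ k : ℕ, 1 ≤ k → k ≤ n → k • x ∈ U}

/-- `G` is UFSS: it is Hausdorff and has a symmetric neighbourhood `U` of `0` such that the sets
`(1/n) U`, `n ≥ 1`, form a base of the neighbourhoods of `0`. -/
def UFSS (G : Type u) [AddCommGroup G] [TopologicalSpace G] : Prop :=
  T2Space G ∧ ∃ U ∈ 𝓝 (0 : G), (∀ x ∈ U, -x ∈ U) ∧
    (𝓝 (0 : G)).HasBasis (fun n : ℕ => 1 ≤ n) (fun n => frac n U)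

/-- `G` is almost minimal: it has a closed minimal subgroup `N` such that `G ⧸ N` is UFSS -/
def AlmostMinimal (G : Type u) [AddCommGroup G] [TopologicalSpace G] : Prop :=
  ∃ N : AddSubgroup G, IsClosed (N : Set G) ∧ Minimal N ∧ UFSS (G ⧸ N)

/-- index set -/
abbrev Idx : Type := ℕ × ℕ

/-- the free abelian group on `ℕ × ℕ` -/
abbrev D : Type := Idx →₀ ℤ

/-- the norm of an element of `D` -/
noncomputable def nrm (x : D) : ℝ := ∑ i ∈ x.support, |(x i : ℝ)| * (1 / 2) ^ i.2

theorem nrm_eq (x : D) (S : Finset Idx) (hS : x.support ⊆ S) :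
    nrm x = ∑ i ∈ S, |(x i : ℝ)| * (1 / 2) ^ i.2 := by
  refine Finset.sum_subset hS fun i _ hi => ?_
  rw [Finsupp.notMem_support_iff.1 hi]
  simp

/-- the norm of `D` -/
noncomputable def addNorm : AddGroupNorm D where
  toFun := nrm
  map_zero' := by simp [nrm]
  add_le' x y := by
    classical
    have hS := Finsupp.support_add (g₁ := x) (g₂ := y)
    rw [nrm_eq _ _ hS, nrm_eq x _ (Finset.subset_union_left), nrm_eq y _ (Finset.subset_union_right),
      ← Finset.sum_add_distrib]
    refine Finset.sum_le_sum fun i _ => ?_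
    rw [← add_mul]
    refine mul_le_mul_of_nonneg_right ?_ (by positivity)
    rw [Finsupp.add_apply, Int.cast_add]
    exact abs_add_le _ _
  neg' x := by
    rw [nrm_eq _ _ (Finsupp.support_neg (f := x)).subset]
    simp [nrm]
  eq_zero_of_map_eq_zero' x hx := by
    have h1 : ∀ i ∈ x.support, |(x i : ℝ)| * (1 / 2) ^ i.2 = 0 :=
      (Finset.sum_eq_zero_iff_of_nonneg fun i _ => by positivity).1 hx
    ext i
    by_contra hi
    have h2 := h1 i (Finsupp.mem_support_iff.2 hi)
    rcases mul_eq_zero.1 h2 with h3 | h3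
    · rw [abs_eq_zero] at h3
      exact hi (by exact_mod_cast h3)
    · exact absurd h3 (by positivity)

noncomputable instance : NormedAddCommGroup D := addNorm.toNormedAddCommGroup

theorem norm_def (x : D) : ‖x‖ = nrm x := rfl

theorem norm_smul_D (n : ℤ) (x : D) : ‖n • x‖ = |(n : ℝ)| * ‖x‖ := by
  rw [norm_def, norm_def, nrm_eq _ _ (Finsupp.support_smul (b := n) (g := x)), nrm, Finset.mul_sum]
  refine Finset.sum_congr rfl fun i _ => ?_
  rw [Finsupp.smul_apply, smul_eq_mul, Int.cast_mul, abs_mul]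
  ring

theorem norm_single (i : Idx) : ‖(Finsupp.single i 1 : D)‖ = (1 / 2) ^ i.2 := by
  rw [norm_def, nrm_eq _ _ Finsupp.support_single_subset]
  simp

/-- reduction modulo `2` -/
def red : ZMod 4 →+* ZMod 2 := ZMod.castHom (by norm_num) (ZMod 2)

theorem red_one : red 1 = 1 := map_one red

/-- the ambient group -/
abbrev Big : Type := ((ℕ → ZMod 4) × (Idx → ZMod 4)) × D

/-- the row sums -/
noncomputable def row (c : Idx →₀ ZMod 2) (x : D) (k : ℕ) : ZMod 2 :=
  Finsupp.mapDomain Prod.fst c k + ((Finsupp.mapDomain Prod.fst x k : ℤ) : ZMod 2)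

theorem row_add (c c' : Idx →₀ ZMod 2) (x x' : D) (k : ℕ) :
    row (c + c') (x + x') k = row c x k + row c' x' k := by
  simp only [row, Finsupp.mapDomain_add, Finsupp.add_apply, Int.cast_add]
  ring

theorem row_neg (c : Idx →₀ ZMod 2) (x : D) (k : ℕ) : row (-c) (-x) k = - row c x k := by
  have h := row_add c (-c) x (-x) k
  rw [add_neg_cancel, add_neg_cancel] at h
  have h0 : row 0 0 k = 0 := by simp [row]
  rw [h0] at h
  exact (neg_eq_of_add_eq_zero_right h.symm).symm

/-- the group `G` -/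
noncomputable def G : AddSubgroup Big where
  carrier := {g | ∃ c : Idx →₀ ZMod 2, (∀ i, red (g.1.2 i) = c i) ∧ ∀ k, red (g.1.1 k) = row c g.2 k}
  zero_mem' := ⟨0, fun i => by simp, fun k => by simp [row]⟩
  add_mem' := by
    rintro g h ⟨c, hc1, hc2⟩ ⟨d, hd1, hd2⟩
    refine ⟨c + d, fun i => ?_, fun k => ?_⟩
    · change red (g.1.2 i + h.1.2 i) = c i + d i
      rw [map_add, hc1, hd1]
    · change red (g.1.1 k + h.1.1 k) = row (c + d) (g.2 + h.2) k
      rw [map_add, hc2, hd2, row_add]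
  neg_mem' := by
    rintro g ⟨c, hc1, hc2⟩
    refine ⟨-c, fun i => ?_, fun k => ?_⟩
    · change red (-(g.1.2 i)) = -(c i)
      rw [map_neg, hc1]
    · change red (-(g.1.1 k)) = row (-c) (-g.2) k
      rw [map_neg, hc2, row_neg]

/-- the projection `G → D` -/
noncomputable def pD : G →+ D := (AddMonoidHom.snd _ _).comp G.subtype

theorem continuous_pD : Continuous pD := continuous_snd.comp continuous_subtype_val

/-- neighbourhoods of zero in `G` -/
theorem nhds_zero_G (W : Set G) (hW : W ∈ 𝓝 (0 : G)) : ∃ (K : ℕ) (ε : ℝ), 0 < ε ∧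
    ∀ g : G, (∀ k < K, (g : Big).1.1 k = 0) → (∀ i : Idx, i.2 < K → (g : Big).1.2 i = 0) →
      ‖(g : Big).2‖ < ε → g ∈ W := by
  classical
  obtain ⟨W', hW', hWW⟩ := (mem_nhds_induced Subtype.val (0 : G) W).1 hW
  have h0 : ((0 : G) : Big) = ((0, 0), 0) := rfl
  rw [h0, nhds_prod_eq, nhds_prod_eq] at hW'
  obtain ⟨W1, hW1, W2, hW2, h12⟩ := Filter.mem_prod_iff.1 hW'
  obtain ⟨W3, hW3, W4, hW4, h34⟩ := Filter.mem_prod_iff.1 hW1
  rw [nhds_pi, Filter.mem_pi] at hW3 hW4
  obtain ⟨I, hI, U, hU, hIU⟩ := hW3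
  obtain ⟨J, hJ, V, hV, hJV⟩ := hW4
  obtain ⟨ε, hε, hεW⟩ := Metric.mem_nhds_iff.1 hW2
  refine ⟨max (hI.toFinset.sup id) (hJ.toFinset.sup fun i => i.2) + 1, ε, hε,
    fun g hg1 hg2 hg3 => hWW (h12 ⟨h34 ⟨hIU fun k hk => ?_, hJV fun i hi => ?_⟩, hεW ?_⟩)⟩
  · rw [hg1 k]
    · exact mem_of_mem_nhds (hU k)
    · have h1 : k ≤ hI.toFinset.sup id := Finset.le_sup (f := id) (hI.mem_toFinset.2 hk)
      have h2 := le_max_left (hI.toFinset.sup id) (hJ.toFinset.sup fun i => i.2)
      omega
  · rw [hg2 i]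
    · exact mem_of_mem_nhds (hV i)
    · have h1 : i.2 ≤ hJ.toFinset.sup fun i => i.2 :=
        Finset.le_sup (f := fun i : Idx => i.2) (hJ.mem_toFinset.2 hi)
      have h2 := le_max_right (hI.toFinset.sup id) (hJ.toFinset.sup fun i => i.2)
      omega
  · rw [mem_ball_zero_iff]
    exact hg3

/-- every element of `D` lifts to elements of `G` with first coordinate zero and second coordinate
vanishing far out -/
theorem exists_lift (K : ℕ) (x : D) : ∃ g : G, (g : Big).1.1 = 0 ∧
    (∀ i : Idx, i.2 < K → (g : Big).1.2 i = 0) ∧ (g : Big).2 = x := by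
  classical
  let r : ℕ →₀ ZMod 2 := (Finsupp.mapDomain Prod.fst x).mapRange (fun z : ℤ => (z : ZMod 2)) (by simp)
  let c : Idx →₀ ZMod 2 := Finsupp.mapDomain (fun k => (k, K)) (-r)
  have hc0 : ∀ i : Idx, i.2 < K → c i = 0 := by
    intro i hi
    refine Finsupp.mapDomain_of_notMem_range _ _ ?_
    rintro ⟨k, rfl⟩
    exact absurd hi (lt_irrefl _)
  have hcr : Finsupp.mapDomain Prod.fst c = -r := by
    have h1 : Finsupp.mapDomain Prod.fst c =
        Finsupp.mapDomain (Prod.fst ∘ fun k : ℕ => (k, K)) (-r) :=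
      (Finsupp.mapDomain_comp).symm
    rw [h1]
    exact Finsupp.mapDomain_id
  refine ⟨⟨((0, fun i => ((c i).val : ZMod 4)), x), c, fun i => ?_, fun k => ?_⟩, rfl, ?_, rfl⟩
  · change red ((c i).val : ZMod 4) = c i
    rw [map_natCast]
    simp
  · change red 0 = row c x k
    rw [map_zero, row, hcr]
    change 0 = -(r k) + ((Finsupp.mapDomain Prod.fst x k : ℤ) : ZMod 2)
    have h2 : r k = ((Finsupp.mapDomain Prod.fst x k : ℤ) : ZMod 2) := rfl
    rw [h2]
    ring
  · intro i hi
    change ((c i).val : ZMod 4) = 0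
    rw [hc0 i hi]
    simp

theorem ufss_aux {Q : Type} [AddCommGroup Q] [TopologicalSpace Q] (hT : T2Space Q)
    (f : Q →+ D) (hf : Continuous f)
    (hW : ∀ W ∈ 𝓝 (0 : Q), ∃ ε > 0, ∀ y, ‖f y‖ < ε → y ∈ W) : UFSS Q := by
  have hnsmul : ∀ (k : ℕ) (y : Q), ‖f (k • y)‖ = k * ‖f y‖ := by
    intro k y
    rw [map_nsmul, ← natCast_zsmul, norm_smul_D]
    simp
  refine ⟨hT, {y | ‖f y‖ ≤ 1}, ?_, ?_, ?_⟩
  · have h1 : IsOpen {y | ‖f y‖ < 1} := isOpen_lt hf.norm continuous_const
    refine mem_of_superset (h1.mem_nhds (by simp)) fun y hy => ?_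
    have : ‖f y‖ < 1 := hy
    exact this.le
  · intro y hy
    have hy' : ‖f y‖ ≤ 1 := hy
    change ‖f (-y)‖ ≤ 1
    rw [map_neg, norm_neg]
    exact hy'
  · refine ⟨fun W => ⟨fun hWn => ?_, ?_⟩⟩
    · obtain ⟨ε, hε, hεW⟩ := hW W hWn
      obtain ⟨n, hn⟩ := exists_nat_gt (1 / ε)
      have hn0 : (0 : ℝ) < n := lt_trans (by positivity) hn
      have hn1 : 1 ≤ n := by
        have : 0 < n := by exact_mod_cast hn0
        omega
      refine ⟨n, hn1, fun y hy => hεW y ?_⟩
      have h1 : ‖f (n • y)‖ ≤ 1 := hy n hn1 le_rfl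
      rw [hnsmul] at h1
      rw [div_lt_iff₀ hε] at hn
      by_contra hcon
      push Not at hcon
      nlinarith
    · rintro ⟨n, hn, hnW⟩
      have hn0 : (0 : ℝ) < n := by exact_mod_cast hn
      have h1 : IsOpen {y | ‖f y‖ < 1 / n} := isOpen_lt hf.norm continuous_const
      refine mem_of_superset (h1.mem_nhds (by simp; omega)) fun y hy => hnW ?_
      intro k hk hkn
      change ‖f (k • y)‖ ≤ 1
      have h2 : ‖f y‖ < 1 / n := hy
      rw [lt_div_iff₀ hn0] at h2
      rw [hnsmul]
      have h3 : (k : ℝ) ≤ n := by exact_mod_cast hkn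
      nlinarith [norm_nonneg (f y)]

theorem two_smul_red (z : ZMod 4) (h : (2 : ℕ) • z = 0) : red z = 0 := by
  revert z
  decide

theorem almostMinimal_G : AlmostMinimal G := by
  have hker : IsClosed (pD.ker : Set G) := isClosed_singleton.preimage continuous_pD
  refine ⟨pD.ker, hker, ?_, ?_⟩
  · -- minimality of the kernel
    let ι : pD.ker →+ ((ℕ → ZMod 4) × (Idx → ZMod 4)) :=
      (AddMonoidHom.fst _ _).comp (G.subtype.comp pD.ker.subtype)
    have hι : IsInducing ι := by
      have h1 : Continuous ι :=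
        continuous_fst.comp (continuous_subtype_val.comp continuous_subtype_val)
      have h2 : Continuous fun c : (ℕ → ZMod 4) × (Idx → ZMod 4) => ((c, 0) : Big) := by fun_prop
      refine IsInducing.of_comp h1 h2 ?_
      have h3 : ((fun c : (ℕ → ZMod 4) × (Idx → ZMod 4) => ((c, 0) : Big)) ∘ ι) =
          (Subtype.val : G → Big) ∘ (Subtype.val : pD.ker → G) := by
        funext g
        have h4 : ((g : G) : Big).2 = 0 := g.2
        exact Prod.ext rfl h4.symm
      rw [h3]
      exact (IsEmbedding.subtypeVal.comp IsEmbedding.subtypeVal).isInducing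
    refine R821.minimal_of_socle ι hι ?_ ?_
    · have h4 : ∀ z : ZMod 4, (2 : ℕ) • (2 : ℕ) • z = 0 := by decide
      intro c
      refine Prod.ext (funext fun k => ?_) (funext fun i => ?_)
      · exact h4 _
      · exact h4 _
    · intro c hc
      have h1 : ∀ k, red (c.1 k) = 0 := fun k => two_smul_red _ (congrFun (congrArg Prod.fst hc) k)
      have h2 : ∀ i, red (c.2 i) = 0 := fun i => two_smul_red _ (congrFun (congrArg Prod.snd hc) i)
      refine ⟨⟨⟨(c, 0), 0, fun i => h2 i, fun k => ?_⟩, rfl⟩, rfl⟩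
      rw [h1 k]
      simp [row]
  · -- the quotient is UFSS
    let f : (G ⧸ pD.ker) →+ D := QuotientAddGroup.lift pD.ker pD (fun x hx => hx)
    have hfm : ∀ g : G, f (g : G ⧸ pD.ker) = pD g := fun g => rfl
    have hT : T2Space (G ⧸ pD.ker) := inferInstance
    refine ufss_aux hT f ?_ ?_
    · exact QuotientAddGroup.isQuotientMap_mk _ |>.continuous_iff.2 continuous_pD
    · intro W hW
      have hW2 : (QuotientAddGroup.mk ⁻¹' W : Set G) ∈ 𝓝 (0 : G) :=
        QuotientAddGroup.continuous_mk.continuousAt.preimage_mem_nhds hW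
      obtain ⟨K, ε, hε, hK⟩ := nhds_zero_G _ hW2
      refine ⟨ε, hε, fun y hy => ?_⟩
      obtain ⟨g, rfl⟩ := QuotientAddGroup.mk_surjective y
      obtain ⟨g', h1, h2, h3⟩ := exists_lift K (pD g)
      have h4 : (g' : G ⧸ pD.ker) ∈ W := by
        refine hK g' (fun k _ => by rw [h1]; rfl) h2 ?_
        rw [h3]
        exact hy
      have h5 : (g' : G ⧸ pD.ker) = (g : G ⧸ pD.ker) := by
        rw [QuotientAddGroup.eq, AddMonoidHom.mem_ker, map_add, map_neg]
        have h6 : pD g' = pD g := h3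
        rw [h6, neg_add_cancel]
      rw [← h5]
      exact h4

/-- the closed subgroup `H` of `G` -/
noncomputable def H : AddSubgroup G where
  carrier := {g | (g : Big).1.2 = 0}
  zero_mem' := rfl
  add_mem' := by
    intro g h hg hh
    have h1 : (g : Big).1.2 = 0 := hg
    have h2 : (h : Big).1.2 = 0 := hh
    change (g : Big).1.2 + (h : Big).1.2 = 0
    rw [h1, h2, add_zero]
  neg_mem' := by
    intro g hg
    have h1 : (g : Big).1.2 = 0 := hg
    change -(g : Big).1.2 = 0
    rw [h1, neg_zero]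

theorem isClosed_H : IsClosed (H : Set G) := by
  have h1 : Continuous fun g : G => (g : Big).1.2 :=
    continuous_snd.comp (continuous_fst.comp continuous_subtype_val)
  exact isClosed_singleton.preimage h1

/-- the elements of `H` with last coordinate zero have even first coordinates -/
theorem red_eq_zero (h : H) (h0 : ((h : G) : Big).2 = 0) (k : ℕ) : red (((h : G) : Big).1.1 k) = 0 := by
  obtain ⟨c, hc1, hc2⟩ := (h : G).2
  have hb : ((h : G) : Big).1.2 = 0 := h.2
  have hc : c = 0 := by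
    ext i
    rw [← hc1 i, hb]
    simp
  rw [hc2 k, hc, h0]
  simp [row]

theorem exists_small (K m : ℕ) : ∃ h : H, (∀ k, ((h : G) : Big).1.1 k = if k = K then 1 else 0) ∧
    ((h : G) : Big).2 = Finsupp.single (K, m) 1 := by
  classical
  refine ⟨⟨⟨((fun k => if k = K then 1 else 0, 0), Finsupp.single (K, m) 1), 0, fun i => ?_,
    fun k => ?_⟩, rfl⟩, fun k => rfl, rfl⟩
  · exact map_zero red
  · change red (if k = K then 1 else 0) = row 0 (Finsupp.single (K, m) 1) k
    rw [row, Finsupp.mapDomain_zero, Finsupp.mapDomain_single, Finsupp.single_apply]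
    by_cases hk : k = K
    · subst hk
      simp
    · have hk' : ¬ K = k := fun h => hk h.symm
      simp [hk, hk']

theorem not_almostMinimal_H : ¬ AlmostMinimal H := by
  classical
  rintro ⟨M, -, hM, -, U, hU, -, hbas⟩
  -- the elements of `M` have last coordinate zero
  have hM0 : ∀ μ : H, μ ∈ M → ((μ : G) : Big).2 = 0 := by
    intro μ hμ
    let f : M →+ D := pD.comp (H.subtype.comp M.subtype)
    have hf : Continuous f :=
      continuous_pD.comp (continuous_subtype_val.comp continuous_subtype_val)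
    exact R821.eq_zero_of_minimal norm_smul_D hM f hf ⟨μ, hμ⟩
  -- a basic neighbourhood
  have hU2 : (QuotientAddGroup.mk ⁻¹' U : Set H) ∈ 𝓝 (0 : H) :=
    QuotientAddGroup.continuous_mk.continuousAt.preimage_mem_nhds hU
  obtain ⟨W', hW', hWW⟩ := (mem_nhds_induced Subtype.val (0 : H) _).1 hU2
  obtain ⟨K, ε, hε, hK⟩ := nhds_zero_G W' hW'
  have hKH : ∀ h : H, (∀ k < K, ((h : G) : Big).1.1 k = 0) → ‖((h : G) : Big).2‖ < ε →
      (h : H ⧸ M) ∈ U := by
    intro h h1 h2
    refine hWW (hK h h1 (fun i _ => ?_) h2)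
    have hb : ((h : G) : Big).1.2 = 0 := h.2
    rw [hb]
    rfl
  let W : Set H := {h | ((h : G) : Big).1.1 K = 0}
  have hWo : IsOpen W := by
    have h1 : Continuous fun h : H => ((h : G) : Big).1.1 K :=
      (continuous_apply K).comp (continuous_fst.comp (continuous_fst.comp
        (continuous_subtype_val.comp continuous_subtype_val)))
    exact (isOpen_discrete ({0} : Set (ZMod 4))).preimage h1
  have hW0 : (QuotientAddGroup.mk '' W : Set (H ⧸ M)) ∈ 𝓝 (0 : H ⧸ M) :=
    (QuotientAddGroup.isOpenMap_coe _ hWo).mem_nhds ⟨0, rfl, rfl⟩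
  obtain ⟨n, hn, hnW⟩ := hbas.mem_iff.1 hW0
  -- a small element
  obtain ⟨m, hm⟩ : ∃ m : ℕ, (n : ℝ) * (1 / 2) ^ m < ε := by
    have hn0 : (0 : ℝ) < n := by exact_mod_cast hn
    obtain ⟨m, hm⟩ := exists_pow_lt_of_lt_one (div_pos hε hn0) (by norm_num : (1 / 2 : ℝ) < 1)
    refine ⟨m, ?_⟩
    rw [lt_div_iff₀ hn0] at hm
    linarith
  obtain ⟨h, hh1, hh2⟩ := exists_small K m
  have hfr : (h : H ⧸ M) ∈ frac n U := by
    intro k _ hkn
    have h1 : k • (h : H ⧸ M) = ((k • h : H) : H ⧸ M) := rfl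
    rw [h1]
    refine hKH _ (fun j hj => ?_) ?_
    · change k • ((h : G) : Big).1.1 j = 0
      rw [hh1 j, if_neg (by omega), smul_zero]
    · change ‖k • ((h : G) : Big).2‖ < ε
      rw [hh2, ← natCast_zsmul, norm_smul_D, norm_single]
      have h2 : (k : ℝ) ≤ n := by exact_mod_cast hkn
      have h3 : (0 : ℝ) < (1 / 2) ^ m := by positivity
      simp only [Int.cast_natCast, Nat.abs_cast]
      nlinarith
  obtain ⟨w, hw, hwh⟩ := hnW hfr
  rw [QuotientAddGroup.eq] at hwh
  have h1 := hM0 _ hwh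
  have h2 := red_eq_zero _ h1 K
  have h3 : ((w : G) : Big).1.1 K = 0 := hw
  change red (-((w : G) : Big).1.1 K + ((h : G) : Big).1.1 K) = 0 at h2
  rw [h3, hh1 K, if_pos rfl, neg_zero, zero_add, red_one] at h2
  exact one_ne_zero h2

/-- **Negative answer to Q1.** There is an almost minimal Hausdorff abelian topological group with a
closed subgroup which is not almost minimal. -/
theorem result : ∃ (G : Type) (_ : AddCommGroup G) (_ : TopologicalSpace G)
    (_ : IsTopologicalAddGroup G) (_ : T2Space G) (H : AddSubgroup G),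
    AlmostMinimal G ∧ IsClosed (H : Set G) ∧ ¬ AlmostMinimal H :=
  ⟨G, inferInstance, inferInstance, inferInstance, inferInstance, H, almostMinimal_G, isClosed_H,
    not_almostMinimal_H⟩

end Pool.Agent.Results.MP_e403d1_gt.ClosedSubgroupNotAlmostMinimal
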